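import Pool.Agent.X11.Bose

/-!
# Question Q1 of MP_50e481_nt fails for `h = 6`, `q = 3`
-/

namespace Pool.Agent.Results.MP_50e481_nt.BoseTernary

open Polynomial

section defs

variable (F : Type) {K : Type} [Field F] [Field K] [Algebra F K]

/-- `b` is admissible: `θ^b` has degree `h` over `F = F_q`. -/
def Admissible (θ : K) (h b : ℕ) : Prop := (minpoly F (θ ^ b)).natDegree = h

/-- `Bose_h(q,b) = {a ∈ ℤ/M : θ^a = θ^b + v for some v ∈ F_q}`, `M = q^h - 1`. -/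
def bose (θ : K) (M b : ℕ) : Set (ZMod M) :=
  {a | ∃ n : ℕ, (n : ZMod M) = a ∧ ∃ v : F, θ ^ n = θ ^ b + algebraMap F K v}

/-- Affine equivalence of subsets of `ℤ/M`. -/
def AffEquiv {M : ℕ} (A B : Set (ZMod M)) : Prop :=
  ∃ d s : ZMod M, IsUnit d ∧ B = (fun a => d * a + s) '' A

/-- One of the conditions (i), (ii), (iii) holds for the admissible values `b`, `e`. -/
def BoseRel (θ : K) (p q h b e : ℕ) : Prop :=
  Admissible F θ h b ∧ Admissible F θ h e ∧
    (b ≡ e [MOD (q ^ h - 1) / (q - 1)] ∨ (∃ v : F, θ ^ b - θ ^ e = algebraMap F K v) ∨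
      ∃ i : ℕ, b ≡ p ^ i * e [MOD q ^ h - 1])

end defs

open X11 X11.Bose

lemma three_cases (v : ZMod 3) : v = 0 ∨ v = 1 ∨ v = 2 := by revert v; decide

lemma bose_eq {t : K} (hP : 2 + t ^ 5 + t ^ 6 = 0) (b c d : ℕ) (hc : t ^ c = t ^ b + 1)
    (hd : t ^ d = t ^ b + 2) : bose (ZMod 3) t (3 ^ 6 - 1) b
      = {(b : ZMod (3 ^ 6 - 1)), (c : ZMod (3 ^ 6 - 1)), (d : ZMod (3 ^ 6 - 1))} := by
  have hM : 3 ^ 6 - 1 = 728 := by norm_num
  have key : ∀ n m : ℕ, t ^ n = t ^ m → (n : ZMod (3 ^ 6 - 1)) = (m : ZMod (3 ^ 6 - 1)) := by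
    intro n m h
    rw [pow_eq_iff hP] at h
    rw [ZMod.natCast_eq_natCast_iff, hM]
    exact h
  ext a
  simp only [bose, Set.mem_ofPred_eq, Set.mem_insert_iff, Set.mem_singleton_iff]
  constructor
  · rintro ⟨n, rfl, v, hv⟩
    rcases three_cases v with rfl | rfl | rfl
    · left; apply key; rw [hv, map_zero, add_zero]
    · right; left; apply key; rw [hv, map_one, hc]
    · right; right; apply key; rw [hv, map_ofNat, hd]
  · rintro (rfl | rfl | rfl)
    · exact ⟨b, rfl, 0, by rw [map_zero, add_zero]⟩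
    · exact ⟨c, rfl, 1, by rw [map_one, hc]⟩
    · exact ⟨d, rfl, 2, by rw [map_ofNat, hd]⟩

lemma aff {t : K} (hP : 2 + t ^ 5 + t ^ 6 = 0) :
    AffEquiv (bose (ZMod 3) t (3 ^ 6 - 1) 11) (bose (ZMod 3) t (3 ^ 6 - 1) 31) := by
  have h11 := F729.p11 hP h0
  have h31 := F729.p31 hP h0
  rw [bose_eq hP 11 661 630 (by
      rw [F729.p661 hP h0, h11]; linear_combination -h0)
    (by rw [F729.p630 hP h0, h11]; linear_combination -h0),
    bose_eq hP 31 473 462 (by
      rw [F729.p473 hP h0, h31]; ring)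
    (by rw [F729.p462 hP h0, h31]; linear_combination -h0)]
  refine ⟨127, 532, ?_, ?_⟩
  · exact IsUnit.of_mul_eq_one (a := (127 : ZMod (3 ^ 6 - 1))) (b := (407 : ℕ)) (by decide)
  · rw [Set.image_insert_eq, Set.image_insert_eq, Set.image_singleton]
    have e1 : (127 : ZMod (3 ^ 6 - 1)) * ((11 : ℕ) : ZMod (3 ^ 6 - 1)) + 532
      = ((473 : ℕ) : ZMod (3 ^ 6 - 1)) := by decide
    have e2 : (127 : ZMod (3 ^ 6 - 1)) * ((661 : ℕ) : ZMod (3 ^ 6 - 1)) + 532
      = ((31 : ℕ) : ZMod (3 ^ 6 - 1)) := by decide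
    have e3 : (127 : ZMod (3 ^ 6 - 1)) * ((630 : ℕ) : ZMod (3 ^ 6 - 1)) + 532
      = ((462 : ℕ) : ZMod (3 ^ 6 - 1)) := by decide
    rw [e1, e2, e3]
    exact Set.insert_comm _ _ _

/-- invariant -/
noncomputable def w (x : K) : K := (x ^ 3 - x) ^ 2

lemma w_cube (x : K) : w (x ^ 3) = w x ^ 3 := by
  unfold w
  have : (x ^ 3) ^ 3 - x ^ 3 = (x ^ 3 - x) ^ 3 := by
    linear_combination (x ^ 7 - x ^ 5) * h0
  rw [this]; ring

lemma w_frob (x : K) (i : ℕ) : w (x ^ (3 ^ i)) = w x ^ (3 ^ i) := by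
  induction i with
  | zero => simp
  | succ i ih => rw [pow_succ 3 i, pow_mul, w_cube, ih, ← pow_mul]

lemma frob_six (x : K) (j : ℕ) : x ^ (3 ^ (6 * j)) = x := by
  induction j with
  | zero => simp
  | succ j ih =>
    have e : 3 ^ (6 * (j + 1)) = 3 ^ (6 * j) * 729 := by rw [mul_add, pow_add]; norm_num
    rw [e, pow_mul, ih]
    have := FiniteField.pow_card x
    rwa [card_K] at this

/-- the relation separating the two classes -/
def Rel (t : K) (b e : ℕ) : Prop := ∃ i : ℕ, w (t ^ e) = w (t ^ b) ^ (3 ^ i)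

lemma Rel.symm {t : K} {b e : ℕ} (h : Rel t b e) : Rel t e b := by
  obtain ⟨i, hi⟩ := h
  refine ⟨5 * i, ?_⟩
  rw [hi, ← pow_mul, ← pow_add]
  have : i + 5 * i = 6 * i := by ring
  rw [this, frob_six]

lemma Rel.trans {t : K} {b e f : ℕ} (h : Rel t b e) (h' : Rel t e f) : Rel t b f := by
  obtain ⟨i, hi⟩ := h
  obtain ⟨j, hj⟩ := h'
  exact ⟨i + j, by rw [hj, hi, ← pow_mul, ← pow_add]⟩

lemma rel_of_boseRel {t : K} (hP : 2 + t ^ 5 + t ^ 6 = 0) {b e : ℕ}
    (h : BoseRel (ZMod 3) t 3 3 6 b e) : Rel t b e := by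
  obtain ⟨-, -, h | ⟨v, hv⟩ | ⟨i, hi⟩⟩ := h
  · -- (i)
    have e1 : (3 ^ 6 - 1) / (3 - 1) = 364 := by norm_num
    rw [e1] at h
    have h2 : t ^ (2 * b) = t ^ (2 * e) := by
      rw [pow_eq_iff hP]
      exact h.mul_left' 2
    have h3 : (t ^ b - t ^ e) * (t ^ b + t ^ e) = 0 := by
      rw [two_mul, two_mul, pow_add, pow_add] at h2
      linear_combination h2
    refine ⟨0, ?_⟩
    rw [pow_zero, pow_one]
    rcases mul_eq_zero.mp h3 with h4 | h4
    · rw [sub_eq_zero.mp h4]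
    · rw [eq_neg_of_add_eq_zero_left h4]
      unfold w; ring
  · -- (ii)
    refine ⟨0, ?_⟩
    rw [pow_zero, pow_one]
    have hv3 : (algebraMap (ZMod 3) K v) ^ 3 = algebraMap (ZMod 3) K v := by
      rw [← map_pow, ZMod.pow_card]
    have he : t ^ e = t ^ b - algebraMap (ZMod 3) K v := by rw [← hv]; ring
    rw [he]
    unfold w
    have : (t ^ b - algebraMap (ZMod 3) K v) ^ 3 - (t ^ b - algebraMap (ZMod 3) K v)
        = (t ^ b) ^ 3 - t ^ b := by
      linear_combination (-(t ^ b) ^ 2 * algebraMap (ZMod 3) K v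
        + t ^ b * (algebraMap (ZMod 3) K v) ^ 2) * h0 - hv3
    rw [this]
  · -- (iii)
    apply Rel.symm
    refine ⟨i, ?_⟩
    have e1 : 3 ^ 6 - 1 = 728 := by norm_num
    rw [e1] at hi
    have h2 := (pow_eq_iff hP _ _).mpr hi
    rw [h2, mul_comm, pow_mul, w_frob]

lemma rel_of_eqvGen {t : K} (hP : 2 + t ^ 5 + t ^ 6 = 0) {b e : ℕ}
    (h : Relation.EqvGen (BoseRel (ZMod 3) t 3 3 6) b e) : Rel t b e := by
  induction h with
  | rel b e h => exact rel_of_boseRel hP h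
  | refl b => exact ⟨0, by simp⟩
  | symm b e _ ih => exact ih.symm
  | trans b e f _ _ ih1 ih2 => exact ih1.trans ih2

lemma not_rel {t : K} (hP : 2 + t ^ 5 + t ^ 6 = 0) : ¬ Rel t 11 31 := by
  rintro ⟨i, hi⟩
  have e11 : w (t ^ 11) = 2 * t + 2 * t ^ 2 + t ^ 5 := by
    unfold w; rw [← pow_mul]; exact F729.w11 hP h0
  have e31 : w (t ^ 31) = (t ^ 93 - t ^ 31) ^ 2 := by
    unfold w; rw [← pow_mul]
  have hcyc : ∀ j : ℕ, w (t ^ 11) ^ (3 ^ j) = 2 * t + 2 * t ^ 2 + t ^ 5 ∨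
      w (t ^ 11) ^ (3 ^ j) = t + t ^ 3 + 2 * t ^ 4 + t ^ 5 ∨
      w (t ^ 11) ^ (3 ^ j) = 1 + t ^ 2 + 2 * t ^ 3 + t ^ 4 + t ^ 5 := by
    intro j
    induction j with
    | zero => left; rw [pow_zero, pow_one, e11]
    | succ j ih =>
      rw [pow_succ 3 j, pow_mul]
      rcases ih with h | h | h <;> rw [h]
      · right; left; exact F729.c1 hP h0
      · right; right; exact F729.c2 hP h0
      · left; exact F729.c3 hP h0
  rw [e31] at hi
  rcases hcyc i with h | h | h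
  · have := F729.n0 hP h0
    rw [hi, h, sub_self, zero_mul] at this
    exact zero_ne_one this
  · have := F729.n1 hP h0
    rw [hi, h, sub_self, zero_mul] at this
    exact zero_ne_one this
  · have := F729.n2 hP h0
    rw [hi, h, sub_self, zero_mul] at this
    exact zero_ne_one this

lemma adm11 {t : K} (hP : 2 + t ^ 5 + t ^ 6 = 0) : Admissible (ZMod 3) t 6 11 := by
  apply degree_six
  · intro h
    rw [← pow_mul] at h
    have := F729.i99 hP h0
    rw [h, sub_self, zero_mul] at this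
    exact zero_ne_one this
  · intro h
    rw [← pow_mul] at h
    have := F729.i297 hP h0
    rw [h, sub_self, zero_mul] at this
    exact zero_ne_one this

lemma adm31 {t : K} (hP : 2 + t ^ 5 + t ^ 6 = 0) : Admissible (ZMod 3) t 6 31 := by
  apply degree_six
  · intro h
    rw [← pow_mul] at h
    have := F729.i279 hP h0
    rw [h, sub_self, zero_mul] at this
    exact zero_ne_one this
  · intro h
    rw [← pow_mul] at h
    have := F729.i837 hP h0
    rw [h, sub_self, zero_mul] at this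
    exact zero_ne_one this

theorem result : ∃ θ : GaloisField 3 6, (∀ x : GaloisField 3 6, x ≠ 0 → ∃ n : ℕ, θ ^ n = x) ∧
    Admissible (ZMod 3) θ 6 11 ∧ Admissible (ZMod 3) θ 6 31 ∧
    AffEquiv (bose (ZMod 3) θ (3 ^ 6 - 1) 11) (bose (ZMod 3) θ (3 ^ 6 - 1) 31) ∧
    ¬ Relation.EqvGen (BoseRel (ZMod 3) θ 3 3 6) 11 31 := by
  obtain ⟨t, hP⟩ := exists_root
  exact ⟨t, generator hP, adm11 hP, adm31 hP, aff hP, fun h => not_rel hP (rel_of_eqvGen hP h)⟩

end Pool.Agent.Results.MP_50e481_nt.BoseTernary
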